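import Pool.Agent.W927.BM.Stm

set_option autoImplicit false

/-! # Part CAT of project BM: separated Borel sets visited by comeagrely many points -/

namespace Pool.Agent.W928.BM.CAT

open TopologicalSpace Set

variable {X : Type} [TopologicalSpace X] [PolishSpace X] [MeasurableSpace X] [BorelSpace X]

/-- points of `V` which do not come back to `V` within distance `r` -/
def AA (T : ℤ → ℤ → X → X) (r : ℤ) (V : Set X) : Set X :=
  V ∩ ⋂ t : ℤ, ⋂ x : ℤ, ⋂ _ : |t| ≤ r ∧ |x| ≤ r ∧ ¬ (t = 0 ∧ x = 0), (T t x ⁻¹' V)ᶜ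

theorem AA_meas {T : ℤ → ℤ → X → X} (hm : ∀ t x, Measurable (T t x)) (r : ℤ) {V : Set X}
    (hV : IsOpen V) : MeasurableSet (AA T r V) := by
  refine hV.measurableSet.inter ?_
  refine MeasurableSet.iInter fun t => MeasurableSet.iInter fun x => MeasurableSet.iInter fun _ => ?_
  exact (hm t x hV.measurableSet).compl

theorem AA_sep {T : ℤ → ℤ → X → X} {r : ℤ} {V : Set X} {y : X} (hy : y ∈ AA T r V) {t x : ℤ}
    (ht : |t| ≤ r) (hx : |x| ≤ r) (h : T t x y ∈ AA T r V) : t = 0 ∧ x = 0 := by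
  by_contra hc
  have h2 := hy.2
  simp only [mem_iInter] at h2
  exact h2 t x ⟨ht, hx, hc⟩ h.1

theorem cover {T : ℤ → ℤ → X → X} (hfree : ∀ t x y, T t x y = y → t = 0 ∧ x = 0) (r : ℤ) (y : X) :
    ∃ V ∈ countableBasis X, y ∈ AA T r V := by
  classical
  have hfin : ({z | ∃ t x : ℤ, |t| ≤ r ∧ |x| ≤ r ∧ ¬ (t = 0 ∧ x = 0) ∧ z = T t x y} : Set X).Finite := by
    refine Set.Finite.subset (((Set.finite_Icc (-r) r).prod (Set.finite_Icc (-r) r)).image
      (fun p : ℤ × ℤ => T p.1 p.2 y)) ?_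
    rintro z ⟨t, x, ht, hx, -, rfl⟩
    exact ⟨(t, x), ⟨abs_le.1 ht, abs_le.1 hx⟩, rfl⟩
  have hopen := hfin.isClosed.isOpen_compl
  have hy : y ∈ ({z | ∃ t x : ℤ, |t| ≤ r ∧ |x| ≤ r ∧ ¬ (t = 0 ∧ x = 0) ∧ z = T t x y} : Set X)ᶜ := by
    rintro ⟨t, x, -, -, hne, h⟩
    exact hne (hfree t x y h.symm)
  obtain ⟨V, hV, hyV, hVs⟩ := (isBasis_countableBasis X).exists_subset_of_mem_open hy hopen
  refine ⟨V, hV, hyV, ?_⟩
  simp only [mem_iInter]
  rintro t x ⟨ht, hx, hne⟩ hc
  exact hVs hc ⟨t, x, ht, hx, hne, rfl⟩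

theorem choice {T : ℤ → ℤ → X → X} (hfree : ∀ t x y, T t x y = y → t = 0 ∧ x = 0) (r : ℤ)
    {V : Set X} (hV : V ∈ countableBasis X) (t x : ℤ) :
    ∃ V' ∈ countableBasis X, ¬ IsMeagre (V ∩ T t x ⁻¹' (AA T r V')) := by
  by_contra hc
  push Not at hc
  have hVo : IsOpen V := (isBasis_countableBasis X).isOpen hV
  have hVn : V.Nonempty := nonempty_of_mem_countableBasis hV
  refine not_isMeagre_of_isOpen hVo hVn ?_
  have hcount : Countable (countableBasis X) := (countable_countableBasis X).to_subtype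
  have : IsMeagre (⋃ V' : countableBasis X, V ∩ T t x ⁻¹' (AA T r V'.1)) :=
    isMeagre_iUnion fun V' => hc V'.1 V'.2
  refine this.mono ?_
  intro y hy
  obtain ⟨V', hV', hyV'⟩ := cover hfree r (T t x y)
  exact mem_iUnion.2 ⟨⟨V', hV'⟩, hy, hyV'⟩

theorem main : Pool.Agent.W927.BM.S_CAT := by
  intro X _ _ _ _ T h0 hadd hm hfree R
  classical
  rcases isEmpty_or_nonempty X with hX | hX
  · refine ⟨fun _ => ∅, Set.univ, fun _ => MeasurableSet.empty, ?_, MeasurableSet.univ, ?_, ?_, ?_⟩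
    · intro k y hy
      exact absurd hy (Set.notMem_empty y)
    · intro t x y _
      trivial
    · exact Filter.univ_mem
    · intro y
      exact (hX.false y).elim
  · have hcount : Countable (countableBasis X) := (countable_countableBasis X).to_subtype
    have hne : Nonempty (countableBasis X) := by
      obtain ⟨y⟩ := hX
      obtain ⟨V, hV, -⟩ := (isBasis_countableBasis X).exists_subset_of_mem_open (mem_univ y) isOpen_univ
      exact ⟨⟨V, hV⟩⟩
    obtain ⟨φ, hφ⟩ := exists_surjective_nat (countableBasis X × ℤ × ℤ)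
    have hch : ∀ k : ℕ, ∃ V' ∈ countableBasis X,
        ¬ IsMeagre ((φ k).1.1 ∩ T (φ k).2.1 (φ k).2.2 ⁻¹' (AA T (R k) V')) :=
      fun k => choice hfree (R k) (φ k).1.2 _ _
    choose V' hV' hnm using hch
    have hUm : ∀ k, MeasurableSet (AA T (R k) (V' k)) := fun k =>
      AA_meas hm (R k) ((isBasis_countableBasis X).isOpen (hV' k))
    have hWm : MeasurableSet (⋃ k, AA T (R k) (V' k)) := MeasurableSet.iUnion hUm
    refine ⟨fun k => AA T (R k) (V' k), ⋂ t : ℤ, ⋂ x : ℤ, T t x ⁻¹' (⋃ k, AA T (R k) (V' k)), hUm,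
      ?_, ?_, ?_, ?_, ?_⟩
    · intro k y hy t x ht hx h
      exact AA_sep hy ht hx h
    · exact MeasurableSet.iInter fun t => MeasurableSet.iInter fun x => hm t x hWm
    · intro t x y hy
      simp only [mem_iInter, mem_preimage] at hy ⊢
      intro s z
      rw [← hadd]
      exact hy _ _
    · rw [countable_iInter_mem]
      intro t
      rw [countable_iInter_mem]
      intro x
      -- the complement is Borel
      have hBm : MeasurableSet (T t x ⁻¹' (⋃ k, AA T (R k) (V' k)))ᶜ := (hm t x hWm).compl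
      obtain ⟨O, hO, hOe⟩ := hBm.baireMeasurableSet.residualEq_isOpen
      have hOempty : O = ∅ := by
        by_contra hOn
        obtain ⟨y, hy⟩ := Set.nonempty_iff_ne_empty.2 hOn
        obtain ⟨V, hV, hyV, hVO⟩ := (isBasis_countableBasis X).exists_subset_of_mem_open hy hO
        obtain ⟨k, hk⟩ := hφ (⟨V, hV⟩, t, x)
        have h1 := hnm k
        rw [hk] at h1
        apply h1
        -- this set is contained in `O \ Wᶜ`
        have h2 : ∀ᶠ z in residual X, z ∈ (T t x ⁻¹' (⋃ k, AA T (R k) (V' k)))ᶜ ↔ z ∈ O :=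
          hOe.mem_iff
        unfold IsMeagre
        filter_upwards [h2] with z hz
        rintro ⟨hz1, hz2⟩
        exact (hz.2 (hVO hz1)) (mem_iUnion.2 ⟨k, hz2⟩)
      subst hOempty
      have h2 : ∀ᶠ z in residual X, z ∈ (T t x ⁻¹' (⋃ k, AA T (R k) (V' k)))ᶜ ↔ z ∈ (∅ : Set X) :=
        hOe.mem_iff
      filter_upwards [h2] with z hz
      by_contra hzc
      exact Set.notMem_empty z (hz.1 hzc)
    · intro y hy
      simp only [mem_iInter, mem_preimage] at hy
      have := hy 0 0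
      rw [h0] at this
      exact mem_iUnion.1 this

end Pool.Agent.W928.BM.CAT
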