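import Pool.Agent.W927.BM.Stm

set_option autoImplicit false

/-! # Part POT of project BM: flattened linear functionals -/

noncomputable section

namespace Pool.Agent.W928.BM.POT

open Pool.Agent.W927.BM

/-- the two functionals and the norm -/
def NN (η : ℝ) (p : ℤ × ℤ) : ℝ :=
  max 0 (max ((1 - 2 * η) * (p.2 : ℝ) + η * ((p.2 : ℝ) - p.1))
    (η * (p.2 : ℝ) + (1 - 2 * η) * ((p.2 : ℝ) - p.1)))

theorem NN_nonneg (η : ℝ) (p : ℤ × ℤ) : 0 ≤ NN η p := le_max_left _ _

theorem NN_zero (η : ℝ) : NN η 0 = 0 := by simp [NN]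

theorem NN_add (η : ℝ) (p q : ℤ × ℤ) : NN η (p + q) ≤ NN η p + NN η q := by
  have h1 : 0 ≤ NN η p := NN_nonneg η p
  have h2 : 0 ≤ NN η q := NN_nonneg η q
  have h3 : (1 - 2 * η) * (p.2 : ℝ) + η * ((p.2 : ℝ) - p.1) ≤ NN η p :=
    (le_max_left _ _).trans (le_max_right _ _)
  have h4 : η * (p.2 : ℝ) + (1 - 2 * η) * ((p.2 : ℝ) - p.1) ≤ NN η p :=
    (le_max_right _ _).trans (le_max_right _ _)
  have h5 : (1 - 2 * η) * (q.2 : ℝ) + η * ((q.2 : ℝ) - q.1) ≤ NN η q :=
    (le_max_left _ _).trans (le_max_right _ _)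
  have h6 : η * (q.2 : ℝ) + (1 - 2 * η) * ((q.2 : ℝ) - q.1) ≤ NN η q :=
    (le_max_right _ _).trans (le_max_right _ _)
  unfold NN
  refine max_le (add_nonneg h1 h2) (max_le ?_ ?_)
  · simp only [Prod.snd_add, Prod.fst_add, Int.cast_add]
    have : (1 - 2 * η) * ((p.2 : ℝ) + q.2) + η * ((p.2 : ℝ) + q.2 - (p.1 + q.1)) =
      ((1 - 2 * η) * (p.2 : ℝ) + η * ((p.2 : ℝ) - p.1)) +
      ((1 - 2 * η) * (q.2 : ℝ) + η * ((q.2 : ℝ) - q.1)) := by ring
    rw [this]
    exact add_le_add h3 h5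
  · simp only [Prod.snd_add, Prod.fst_add, Int.cast_add]
    have : η * ((p.2 : ℝ) + q.2) + (1 - 2 * η) * ((p.2 : ℝ) + q.2 - (p.1 + q.1)) =
      (η * (p.2 : ℝ) + (1 - 2 * η) * ((p.2 : ℝ) - p.1)) +
      (η * (q.2 : ℝ) + (1 - 2 * η) * ((q.2 : ℝ) - q.1)) := by ring
    rw [this]
    exact add_le_add h4 h6

/-- real form of the key inequality -/
theorem key_real {η η' a b a' b' r : ℝ} (h0 : 0 ≤ η') (hle : η' ≤ η) (h3 : η ≤ 1 / 3)
    (hra : |a - a'| ≤ r) (hrb : |b - b'| ≤ r)
    (hbig : 2 * r ≤ (η - η') * max |a'| |b'|) :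
    max 0 (max ((1 - 2 * η) * b' + η * (b' - a')) (η * b' + (1 - 2 * η) * (b' - a'))) ≤
    max 0 (max ((1 - 2 * η') * b + η' * (b - a)) (η' * b + (1 - 2 * η') * (b - a))) := by
  have hr : 0 ≤ r := (abs_nonneg _).trans hra
  obtain ⟨ha1, ha2⟩ := abs_le.1 hra
  obtain ⟨hb1, hb2⟩ := abs_le.1 hrb
  have he : 0 ≤ η - η' := sub_nonneg.2 hle
  refine max_le (le_max_left _ _) ?_
  rcases le_total 0 a' with hA | hA
  · -- `b' - a' ≤ b'`
    have hcmp : η * b' + (1 - 2 * η) * (b' - a') ≤ (1 - 2 * η) * b' + η * (b' - a') := by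
      have : 0 ≤ (1 - 3 * η) * a' := mul_nonneg (by linarith) hA
      linarith
    rw [max_eq_left hcmp]
    rcases le_or_gt ((1 - 2 * η) * b' + η * (b' - a')) 0 with hneg | hpos
    · exact hneg.trans (le_max_left _ _)
    · refine le_trans ?_ ((le_max_left _ _).trans (le_max_right _ _))
      have hb' : 0 < b' := by
        by_contra hc
        push Not at hc
        have h1 : 0 ≤ (1 - η) * (-b') := mul_nonneg (by linarith) (by linarith)
        have h2 : 0 ≤ η * a' := mul_nonneg (by linarith) hA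
        linarith
      have hm : max |a'| |b'| ≤ 2 * b' - (b' - a') := by
        rw [abs_of_nonneg hA, abs_of_pos hb']
        exact max_le (by linarith) (by linarith)
      have h1 : 2 * r ≤ (η - η') * (2 * b' - (b' - a')) :=
        hbig.trans (mul_le_mul_of_nonneg_left hm he)
      have h2 : 0 ≤ (1 - η') * (b - b' + r) := mul_nonneg (by linarith) (by linarith)
      have h3 : 0 ≤ η' * (r - (a - a')) := mul_nonneg h0 (by linarith)
      have h4 : 0 ≤ η' * r := mul_nonneg h0 hr
      nlinarith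
  · have hcmp : (1 - 2 * η) * b' + η * (b' - a') ≤ η * b' + (1 - 2 * η) * (b' - a') := by
      have : 0 ≤ (1 - 3 * η) * (-a') := mul_nonneg (by linarith) (by linarith)
      linarith
    rw [max_eq_right hcmp]
    rcases le_or_gt (η * b' + (1 - 2 * η) * (b' - a')) 0 with hneg | hpos
    · exact hneg.trans (le_max_left _ _)
    · refine le_trans ?_ ((le_max_right _ _).trans (le_max_right _ _))
      have hB : 0 < b' - a' := by
        by_contra hc
        push Not at hc
        have h1 : 0 ≤ (1 - η) * (-(b' - a')) := mul_nonneg (by linarith) (by linarith)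
        have h2 : 0 ≤ η * (-a') := mul_nonneg (by linarith) (by linarith)
        linarith
      have hm : max |a'| |b'| ≤ 2 * (b' - a') - b' := by
        refine max_le ?_ ?_
        · rw [abs_of_nonpos hA]; linarith
        · rw [abs_le]; constructor <;> linarith
      have h1 : 2 * r ≤ (η - η') * (2 * (b' - a') - b') :=
        hbig.trans (mul_le_mul_of_nonneg_left hm he)
      have h2 : 0 ≤ (1 - η') * (b - b' + r) := mul_nonneg (by linarith) (by linarith)
      have h3 : 0 ≤ (1 - 2 * η') * (r - (a - a')) := mul_nonneg (by linarith) (by linarith)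
      have h4 : 0 ≤ η' * r := mul_nonneg h0 hr
      nlinarith

theorem NN_key {η η' : ℝ} (h0 : 0 ≤ η') (hle : η' ≤ η) (h3 : η ≤ 1 / 3) {D D' : ℤ × ℤ} {r : ℤ}
    (h : dd D D' ≤ r) (hbig : 2 * (r : ℝ) ≤ (η - η') * ((dd D' 0 : ℤ) : ℝ)) :
    NN η D' ≤ NN η' D := by
  unfold dd at h hbig
  have h1 : |D.1 - D'.1| ≤ r := (le_max_left _ _).trans h
  have h2 : |D.2 - D'.2| ≤ r := (le_max_right _ _).trans h
  refine key_real (r := (r : ℝ)) h0 hle h3 ?_ ?_ ?_
  · exact_mod_cast h1
  · exact_mod_cast h2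
  · simpa using hbig

theorem NN_mono {η η' : ℝ} (h0 : 0 ≤ η') (hle : η' ≤ η) (h3 : η ≤ 1 / 3) (D : ℤ × ℤ) :
    NN η D ≤ NN η' D := by
  refine NN_key (r := 0) h0 hle h3 (by simp [dd]) ?_
  have h1 : (0 : ℝ) ≤ ((dd D 0 : ℤ) : ℝ) := by
    have : (0 : ℤ) ≤ dd D 0 := (abs_nonneg _).trans (le_max_left _ _)
    exact_mod_cast this
  have := mul_nonneg (sub_nonneg.2 hle) h1
  simpa using this

/-- McShane extension -/
theorem mcshane (N : ℤ × ℤ → ℝ) (hN0 : N 0 = 0) (hN : ∀ p q, N (p + q) ≤ N p + N q)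
    (E : Set (ℤ × ℤ)) (hE : E.Nonempty) (f : ℤ × ℤ → ℝ)
    (hf : ∀ p ∈ E, ∀ q ∈ E, f q - f p ≤ N (q - p)) :
    ∃ F : ℤ × ℤ → ℝ, (∀ p q, F q - F p ≤ N (q - p)) ∧ ∀ p ∈ E, F p = f p := by
  have : Nonempty E := hE.to_subtype
  have hbd : ∀ p, BddBelow (Set.range fun e : E => f e + N (p - e)) := by
    intro p
    obtain ⟨q0, hq0⟩ := hE
    refine ⟨f q0 - N (q0 - p), ?_⟩
    rintro _ ⟨e, rfl⟩
    have h1 := hf e.1 e.2 q0 hq0
    have h2 := hN (q0 - p) (p - e)
    rw [sub_add_sub_cancel] at h2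
    simp only
    linarith
  refine ⟨fun p => ⨅ e : E, (f e + N (p - e)), ?_, ?_⟩
  · intro p q
    have : (⨅ e : E, (f e + N (q - e))) - N (q - p) ≤ ⨅ e : E, (f e + N (p - e)) := by
      refine le_ciInf fun e => ?_
      have h1 : (⨅ e : E, (f e + N (q - e))) ≤ f e + N (q - e) := ciInf_le (hbd q) e
      have h2 := hN (q - p) (p - e)
      rw [sub_add_sub_cancel] at h2
      linarith
    simp only
    linarith
  · intro p hp
    apply le_antisymm
    · have h1 : (⨅ e : E, (f e + N (p - e))) ≤ f p + N (p - p) := ciInf_le (hbd p) ⟨p, hp⟩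
      rw [sub_self, hN0, add_zero] at h1
      exact h1
    · refine le_ciInf fun e => ?_
      have := hf e.1 e.2 p hp
      linarith

theorem dd_nonneg (p q : ℤ × ℤ) : 0 ≤ dd p q := (abs_nonneg _).trans (le_max_left _ _)

theorem dd_comm (p q : ℤ × ℤ) : dd p q = dd q p := by
  unfold dd
  rw [abs_sub_comm p.1 q.1, abs_sub_comm p.2 q.2]

theorem dd_self (p : ℤ × ℤ) : dd p p = 0 := by simp [dd]

theorem dd_tri (p q s : ℤ × ℤ) : dd p s ≤ dd p q + dd q s := by
  unfold dd
  refine max_le ?_ ?_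
  · exact (abs_sub_le _ _ _).trans (add_le_add (le_max_left _ _) (le_max_left _ _))
  · exact (abs_sub_le _ _ _).trans (add_le_add (le_max_right _ _) (le_max_right _ _))

theorem dd_sub (p q p' q' : ℤ × ℤ) : dd (q - p) (q' - p') ≤ dd q q' + dd p p' := by
  unfold dd
  simp only [Prod.fst_sub, Prod.snd_sub]
  refine max_le ?_ ?_
  · have h : q.1 - p.1 - (q'.1 - p'.1) = (q.1 - q'.1) - (p.1 - p'.1) := by ring
    rw [h]
    exact (abs_sub _ _).trans (add_le_add (le_max_left _ _) (le_max_left _ _))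
  · have h : q.2 - p.2 - (q'.2 - p'.2) = (q.2 - q'.2) - (p.2 - p'.2) := by ring
    rw [h]
    exact (abs_sub _ _).trans (add_le_add (le_max_right _ _) (le_max_right _ _))

theorem dd_sub_zero (p q : ℤ × ℤ) : dd (q - p) 0 = dd q p := by
  simp [dd]

/-- one level -/
theorem one_level {η η' : ℝ} (h0 : 0 ≤ η') (hle : η' ≤ η) (h3 : η ≤ 1 / 3) {C : Set (ℤ × ℤ)}
    {R r T : ℤ} (hC : Sep C R) (hr : 0 ≤ r) (hrT : r < T) (hTR : T + 2 * r ≤ R)
    (hbig : 4 * (r : ℝ) ≤ (η - η') * (T : ℝ)) (Φ : ℤ × ℤ → ℝ)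
    (hΦ : ∀ p q, Φ q - Φ p ≤ NN η (q - p)) :
    ∃ Φ' : ℤ × ℤ → ℝ, (∀ p q, Φ' q - Φ' p ≤ NN η' (q - p)) ∧
      (∀ v, (∀ z ∈ C, T ≤ dd v z) → Φ' v = Φ v) ∧
      (∀ z ∈ C, ∀ v, dd v z ≤ r → Φ' v = Φ z) := by
  classical
  let near : ℤ × ℤ → Prop := fun v => ∃ z ∈ C, dd v z ≤ r
  let rep : ℤ × ℤ → ℤ × ℤ := fun v => if h : near v then h.choose else v
  have hrep_near : ∀ v z, z ∈ C → dd v z ≤ r → rep v = z := by
    intro v z hz hvz
    have h : near v := ⟨z, hz, hvz⟩
    have hdef : rep v = h.choose := dif_pos h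
    rw [hdef]
    obtain ⟨h1, h2⟩ := h.choose_spec
    by_contra hne
    have h4 := hC _ h1 z hz hne
    have h5 := dd_tri h.choose v z
    rw [dd_comm h.choose v] at h5
    have : dd v h.choose ≤ r := h2
    omega
  have hrep_far : ∀ v, (∀ z ∈ C, T ≤ dd v z) → rep v = v := by
    intro v hv
    refine dif_neg ?_
    rintro ⟨z, hz, hvz⟩
    have := hv z hz
    omega
  let E : Set (ℤ × ℤ) := {v | (∀ z ∈ C, T ≤ dd v z) ∨ near v}
  have hE : E.Nonempty := by
    rcases C.eq_empty_or_nonempty with hCe | ⟨z, hz⟩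
    · refine ⟨0, Or.inl ?_⟩
      intro z hz
      rw [hCe] at hz
      exact absurd hz (Set.notMem_empty z)
    · exact ⟨z, Or.inr ⟨z, hz, by rw [dd_self]; exact hr⟩⟩
  have hrepr : ∀ v ∈ E, dd v (rep v) ≤ r := by
    rintro v (hv | ⟨z, hz, hvz⟩)
    · rw [hrep_far v hv, dd_self]; exact hr
    · rw [hrep_near v z hz hvz]; exact hvz
  have he : 0 ≤ η - η' := sub_nonneg.2 hle
  have hf : ∀ p ∈ E, ∀ q ∈ E, Φ (rep q) - Φ (rep p) ≤ NN η' (q - p) := by
    intro p hp q hq
    -- the case of a large distance of the representatives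
    have hlarge : T ≤ dd (rep q) (rep p) → Φ (rep q) - Φ (rep p) ≤ NN η' (q - p) := by
      intro hT
      refine (hΦ (rep p) (rep q)).trans ?_
      refine NN_key (r := 2 * r) h0 hle h3 ?_ ?_
      · refine (dd_sub p q (rep p) (rep q)).trans ?_
        have h1 := hrepr p hp
        have h2 := hrepr q hq
        omega
      · rw [dd_sub_zero]
        have hT' : (T : ℝ) ≤ ((dd (rep q) (rep p) : ℤ) : ℝ) := by exact_mod_cast hT
        have := mul_le_mul_of_nonneg_left hT' he
        push_cast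
        linarith
    rcases hp with hp1 | ⟨z, hz, hpz⟩
    · rcases hq with hq1 | ⟨z', hz', hqz'⟩
      · rw [hrep_far p hp1, hrep_far q hq1]
        exact (hΦ p q).trans (NN_mono h0 hle h3 _)
      · apply hlarge
        rw [hrep_far p hp1, hrep_near q z' hz' hqz', dd_comm]
        exact hp1 z' hz'
    · rcases hq with hq1 | ⟨z', hz', hqz'⟩
      · apply hlarge
        rw [hrep_far q hq1, hrep_near p z hz hpz]
        exact hq1 z hz
      · by_cases hzz : z = z'
        · subst hzz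
          rw [hrep_near p z hz hpz, hrep_near q z hz' hqz', sub_self]
          exact NN_nonneg _ _
        · apply hlarge
          rw [hrep_near p z hz hpz, hrep_near q z' hz' hqz']
          have := hC z' hz' z hz (Ne.symm hzz)
          omega
  obtain ⟨F, hF1, hF2⟩ := mcshane (NN η') (NN_zero η') (NN_add η') E hE (fun v => Φ (rep v)) hf
  refine ⟨F, hF1, ?_, ?_⟩
  · intro v hv
    rw [hF2 v (Or.inl hv), hrep_far v hv]
  · intro z hz v hvz
    rw [hF2 v (Or.inr ⟨z, hz, hvz⟩), hrep_near v z hz hvz]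

/-- the parameters of the levels -/
def et (i : ℕ) : ℝ := 1 / 40 * (1 - 1 / 2 ^ (i + 1))

theorem et_nonneg (i : ℕ) : 0 ≤ et i := by
  unfold et
  have : (1 : ℝ) / 2 ^ (i + 1) ≤ 1 := by
    rw [div_le_one (by positivity)]
    exact one_le_pow₀ (by norm_num)
  nlinarith

theorem et_le (i : ℕ) : et i ≤ 1 / 40 := by
  unfold et
  have : (0 : ℝ) < 1 / 2 ^ (i + 1) := by positivity
  nlinarith

theorem et_succ (i : ℕ) : et (i + 1) - et i = 1 / 40 * (1 / 2 ^ (i + 2)) := by
  unfold et
  have h2 : (2 : ℝ) ^ (i + 1 + 1) = 2 * 2 ^ (i + 1) := by rw [pow_succ]; ring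
  rw [h2]
  have h3 : (2 : ℝ) ^ (i + 1) ≠ 0 := by positivity
  field_simp
  ring

theorem Sk_pos (k : ℕ) : (2 : ℤ) ^ 16 ≤ Sk k := by
  induction k with
  | zero => simp [Sk]
  | succ k ih =>
    simp only [Sk]
    have h1 : (1 : ℤ) ≤ 2 ^ (3 * k + 48) := one_le_pow₀ (by norm_num)
    have h2 : (0 : ℤ) < Sk k := lt_of_lt_of_le (by norm_num) ih
    nlinarith

theorem main : S_POT := by
  intro k C hC j
  have hind : ∀ n m : ℕ, m + n = k → ∃ Φ : ℤ × ℤ → ℝ, (∀ p q, Φ q - Φ p ≤ NN (et m) (q - p)) ∧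
      (∀ v, (∀ i, m ≤ i → i < k → ∀ z ∈ C i, Tk i ≤ dd v z) → Φ v = lin j v.1 v.2) ∧
      (∀ i, m ≤ i → i < k → ∀ z ∈ C i, ∀ v w : ℤ × ℤ, dd v z ≤ Sk i + 2 → dd w z ≤ Sk i + 2 →
        (∀ l, m ≤ l → l < i → ∀ z' ∈ C l, Tk l ≤ dd v z') →
        (∀ l, m ≤ l → l < i → ∀ z' ∈ C l, Tk l ≤ dd w z') → Φ v = Φ w) := by
    intro n
    induction n with
    | zero =>
      intro m hm
      have hm : m = k := by omega
      subst hm
      refine ⟨fun v => lin j v.1 v.2, ?_, ?_, ?_⟩
      · intro p q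
        have h1 : lin j q.1 q.2 - lin j p.1 p.2 ≤ NN (1 / 40) (q - p) := by
          cases j
          · refine le_trans (le_of_eq ?_) ((le_max_right _ _).trans (le_max_right _ _))
            simp only [lin, Prod.snd_sub, Prod.fst_sub, Int.cast_sub]
            ring
          · refine le_trans (le_of_eq ?_) ((le_max_left _ _).trans (le_max_right _ _))
            simp only [lin, Prod.snd_sub, Prod.fst_sub, Int.cast_sub]
            ring
        exact h1.trans (NN_mono (et_nonneg m) (et_le m) (by norm_num) _)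
      · intro v _
        rfl
      · intro i hi1 hi2
        omega
    | succ n ih =>
      intro m hm
      obtain ⟨Φ, hΦ1, hΦ2, hΦ3⟩ := ih (m + 1) (by omega)
      have hmk : m < k := by omega
      have hS := Sk_pos m
      have hSpos : (0 : ℤ) < Sk m := lt_of_lt_of_le (by norm_num) hS
      have h2m : (2 : ℤ) ^ 16 ≤ 2 ^ (m + 16) := pow_le_pow_right₀ (by norm_num) (by omega)
      have hTk : (2 : ℤ) ^ 16 * Sk m ≤ Tk m := by
        unfold Tk
        exact mul_le_mul_of_nonneg_right h2m hSpos.le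
      have hRk : Rk m = 2 ^ (m + 16) * Tk m := by
        unfold Rk Tk
        rw [← mul_assoc, ← pow_add]
        congr 2
        omega
      have hRk2 : (2 : ℤ) ^ 16 * Tk m ≤ Rk m := by
        rw [hRk]
        refine mul_le_mul_of_nonneg_right h2m ?_
        unfold Tk
        positivity
      have hSn : (2 : ℤ) ^ 16 = 65536 := by norm_num
      rw [hSn] at hS hTk hRk2
      obtain ⟨Φ', h1, h2, h3⟩ := one_level (η := et (m + 1)) (η' := et m) (C := C m) (R := Rk m)
        (r := Sk m + 2) (T := Tk m) (et_nonneg m)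
        (by
          have := et_succ m
          have h4 : (0 : ℝ) < 1 / 40 * (1 / 2 ^ (m + 2)) := by positivity
          linarith)
        ((et_le (m + 1)).trans (by norm_num)) (hC m hmk) (by omega) (by omega) (by omega)
        (by
          rw [et_succ]
          unfold Tk
          push_cast
          have h5 : (2 : ℝ) ^ (m + 16) = 2 ^ 14 * 2 ^ (m + 2) := by
            rw [← pow_add]; congr 1; omega
          rw [h5]
          have h6 : (2 : ℝ) ^ (m + 2) ≠ 0 := by positivity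
          have h7 : 1 / 40 * (1 / (2 : ℝ) ^ (m + 2)) * (2 ^ 14 * 2 ^ (m + 2) * (Sk m : ℝ)) =
            2 ^ 14 / 40 * (Sk m : ℝ) := by
            field_simp
          rw [h7]
          have h8 : (65536 : ℝ) ≤ (Sk m : ℝ) := by exact_mod_cast hS
          norm_num
          linarith) Φ hΦ1
      refine ⟨Φ', h1, ?_, ?_⟩
      · intro v hv
        rw [h2 v (hv m le_rfl hmk)]
        exact hΦ2 v (fun i hi hik => hv i (by omega) hik)
      · intro i hi hik z hz v w hvz hwz hv hw
        rcases Nat.eq_or_lt_of_le hi with heq | hlt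
        · subst heq
          rw [h3 z hz v hvz, h3 z hz w hwz]
        · rw [h2 v (hv m le_rfl hlt), h2 w (hw m le_rfl hlt)]
          exact hΦ3 i hlt hik z hz v w hvz hwz (fun l hl hli => hv l (by omega) hli)
            (fun l hl hli => hw l (by omega) hli)
  obtain ⟨Φ, h1, h2, h3⟩ := hind k 0 (by omega)
  have he0 : et 0 = 1 / 80 := by unfold et; norm_num
  rw [he0] at h1
  refine ⟨fun t x => Φ (t, x), ?_, ?_, ?_, ?_, ?_⟩
  · intro t x
    constructor
    · have := h1 (t + 1, x) (t, x - 1)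
      have hN : NN (1 / 80) ((t, x - 1) - (t + 1, x)) = 0 := by
        unfold NN
        simp only [Prod.mk_sub_mk]
        have e1 : ((x - 1 - x : ℤ) : ℝ) = -1 := by push_cast; ring
        have e2 : ((t - (t + 1) : ℤ) : ℝ) = -1 := by push_cast; ring
        rw [e1, e2]
        norm_num
      rw [hN] at this
      simp only
      linarith
    · have := h1 (t, x - 1) (t + 1, x)
      have hN : NN (1 / 80) ((t + 1, x) - (t, x - 1)) ≤ 1 := by
        unfold NN
        simp only [Prod.mk_sub_mk]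
        have e1 : ((x - (x - 1) : ℤ) : ℝ) = 1 := by push_cast; ring
        have e2 : ((t + 1 - t : ℤ) : ℝ) = 1 := by push_cast; ring
        rw [e1, e2]
        norm_num
      simp only
      linarith
  · intro t x
    constructor
    · have := h1 (t, x) (t + 1, x)
      have hN : NN (1 / 80) ((t + 1, x) - (t, x)) = 0 := by
        unfold NN
        simp only [Prod.mk_sub_mk]
        have e1 : ((x - x : ℤ) : ℝ) = 0 := by push_cast; ring
        have e2 : ((t + 1 - t : ℤ) : ℝ) = 1 := by push_cast; ring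
        rw [e1, e2]
        norm_num
      rw [hN] at this
      simp only
      linarith
    · have := h1 (t + 1, x) (t, x)
      have hN : NN (1 / 80) ((t, x) - (t + 1, x)) ≤ 1 := by
        unfold NN
        simp only [Prod.mk_sub_mk]
        have e1 : ((x - x : ℤ) : ℝ) = 0 := by push_cast; ring
        have e2 : ((t - (t + 1) : ℤ) : ℝ) = -1 := by push_cast; ring
        rw [e1, e2]
        norm_num
      simp only
      linarith
  · intro t x
    have := h1 (t, x - 1) (t, x)
    have hN : NN (1 / 80) ((t, x) - (t, x - 1)) ≤ 1 := by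
      unfold NN
      simp only [Prod.mk_sub_mk]
      have e1 : ((x - (x - 1) : ℤ) : ℝ) = 1 := by push_cast; ring
      have e2 : ((t - t : ℤ) : ℝ) = 0 := by push_cast; ring
      rw [e1, e2]
      norm_num
    simp only
    linarith
  · intro t x hfar
    refine h2 (t, x) ?_
    intro i _ hik z hz
    have := hfar i hik z hz
    simpa using this
  · intro i hik z hz v w hvz hwz hv hw
    refine h3 i (Nat.zero_le _) hik z hz v w hvz hwz ?_ ?_
    · intro l _ hli z' hz'
      have := hv l hli z' hz'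
      simpa using this
    · intro l _ hli z' hz'
      have := hw l hli z' hz'
      simpa using this

end Pool.Agent.W928.BM.POT

end
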